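import Pool.Agent.helper51.QW.Spec
import Pool.Agent.helper11.PT.GPR

/-!
# Project QW, row QWV
-/

set_option autoImplicit false

namespace Pool.Agent.PT

open Finset Pool.Agent.helper71.AA

private lemma QWV_Sg (Q : Finset ℕ) (R : ℝ) : Sg Q R ∅ = Gs Q R := by
  unfold Sg Gs
  refine sum_congr rfl fun K _ => ?_
  have : ch K ∅ = 1 := by
    unfold ch
    exact prod_eq_one fun l _ => by simp
  rw [this]

private lemma QWV_Az (X : ℝ) (Q : Finset ℕ) (a p : ℕ) (hQ : ∀ l ∈ Q, l.Prime ∧ (l : ℝ) ≤ X)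
    (h0 : 1 ≤ a * p ^ 2) (hq : (a * p ^ 2 - 1).Prime) (hX : X < ((a * p ^ 2 - 1 : ℕ) : ℝ)) :
    Az Q p (a : ℤ) = ∅ := by
  unfold Az
  rw [filter_eq_empty_iff]
  intro l hl hd
  obtain ⟨h1, h2⟩ := hQ l hl
  have h3 : ((a * p ^ 2 - 1 : ℕ) : ℤ) = (a : ℤ) * (p : ℤ) ^ 2 - 1 := by
    push_cast [Nat.cast_sub h0]
    ring
  rw [← h3, Int.natCast_dvd_natCast] at hd
  have h4 := (Nat.prime_dvd_prime_iff_eq h1 hq).mp hd
  rw [← h4] at hX
  linarith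

/-- **QWV**. -/
theorem QWV : QWV_stmt := by
  intro w hw η hη hη1
  refine ⟨1, fun X hX ξ hξ a p ha haX hp hwp hq => ?_⟩
  have hX0 : (0 : ℝ) < X := by linarith
  have hp11 : 11 ≤ p := by omega
  have hp11' : (11 : ℝ) ≤ p := by exact_mod_cast hp11
  have hX9 : (1 : ℝ) ≤ X ^ (0.9 : ℝ) := Real.one_le_rpow hX (by norm_num)
  have hapos : (1 : ℝ) ≤ a := hX9.trans ha
  have h0 : 1 ≤ a * p ^ 2 := by
    have h1 : 1 ≤ a := by exact_mod_cast hapos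
    have h2 : 1 ≤ p ^ 2 := Nat.one_le_pow _ _ (by omega)
    exact Nat.mul_pos h1 h2
  have hcast : ((a * p ^ 2 - 1 : ℕ) : ℝ) = (a : ℝ) * (p : ℝ) ^ 2 - 1 := by
    push_cast [Nat.cast_sub h0]
    ring
  have hbig : X ^ (0.47 : ℝ) < ((a * p ^ 2 - 1 : ℕ) : ℝ) := by
    rw [hcast]
    have h1 : X ^ (0.47 : ℝ) ≤ X ^ (0.9 : ℝ) := Real.rpow_le_rpow_of_exponent_le hX (by norm_num)
    have h2 : (121 : ℝ) ≤ (p : ℝ) ^ 2 := by nlinarith
    have h3 : (a : ℝ) * 121 ≤ a * (p : ℝ) ^ 2 := mul_le_mul_of_nonneg_left h2 (by linarith)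
    linarith
  have hQl : Az (Ql X η) p (a : ℤ) = ∅ := by
    refine QWV_Az (X ^ (0.47 : ℝ)) _ a p ?_ h0 hq hbig
    intro l hl
    unfold Ql Qs at hl
    rw [mem_filter, mem_Ioc] at hl
    refine ⟨hl.2, ?_⟩
    have h1 : (l : ℝ) ≤ (⌊X ^ (0.47 : ℝ)⌋₊ : ℝ) := by exact_mod_cast hl.1.2
    exact h1.trans (Nat.floor_le (by positivity))
  have hQm : Az (Qm w X η) p (a : ℤ) = ∅ := by
    refine QWV_Az (X ^ (0.47 : ℝ)) _ a p ?_ h0 hq hbig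
    intro l hl
    unfold Qm Qs at hl
    rw [mem_filter, mem_Ioc] at hl
    refine ⟨hl.2, ?_⟩
    have h1 : (l : ℝ) ≤ (⌊X ^ η⌋₊ : ℝ) := by exact_mod_cast hl.1.2
    refine (h1.trans (Nat.floor_le (by positivity))).trans ?_
    exact Real.rpow_le_rpow_of_exponent_le hX (by linarith)
  have habs : |(((a : ℤ) : ℤ) : ℝ)| ≤ X ^ 2 := by
    rw [Int.cast_natCast, abs_of_nonneg (by linarith)]
    nlinarith
  unfold ft
  rw [if_pos ⟨hQm, habs⟩]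
  unfold fw
  rw [hQm, hQl, QWV_Sg]
  have hU : U ξ ∅ = 1 := by
    unfold U
    rw [powerset_empty, sum_singleton, hξ]
  rw [hU, mul_one]
  have hR : 1 ≤ Rr X := Real.one_le_rpow hX (by norm_num)
  obtain ⟨g1, _, g3⟩ := GPR w ⌊X ^ η⌋₊ (by omega) (Qm w X η) (Subset.refl _) (Rr X) p hR hwp
  have hw0 : (0 : ℝ) < w := by
    have : (10 : ℝ) ≤ w := by exact_mod_cast hw
    linarith
  have hw1 : (0 : ℝ) ≤ 1 - 2 / w := by
    rw [sub_nonneg, div_le_one hw0]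
    have : (10 : ℝ) ≤ w := by exact_mod_cast hw
    linarith
  have g4 : 0 ≤ Gs (Qm w X η) (Rr X) := by
    obtain ⟨_, g2, _⟩ := GPR w ⌊X ^ η⌋₊ (by omega) (Qm w X η) (Subset.refl _) (Rr X) p hR hwp
    linarith
  rw [← mul_pow]
  exact pow_le_pow_left₀ (mul_nonneg hw1 g4) g3 2

end Pool.Agent.PT
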